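import Pool.Agent.H7.LP.Targets

/-!
# Groups with locally compact pieces: countably many quotients (row GAM)
-/

set_option autoImplicit false

open Set Filter Topology

namespace Pool.Agent.H5.LP

open Pool.Agent.H93.CP Pool.Agent.H7.LP

/-- a relatively open subgroup has countably many left cosets -/
lemma cos_cnt {G : Type} [Group G] [TopologicalSpace G] [IsTopologicalGroup G] [PolishSpace G]
    {K D : Subgroup G} (h : OpenIn K D) : ∃ d : ℕ → G, ∀ a ∈ D, ∃ n, (d n)⁻¹ * a ∈ K := by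
  obtain ⟨U, hU, hUK⟩ := h
  obtain ⟨V, hVU, hVo, hV1⟩ := mem_nhds_iff.1 hU
  have : SecondCountableTopology G := inferInstance
  have : SecondCountableTopology ↥D := TopologicalSpace.Subtype.secondCountableTopology (D : Set G)
  obtain ⟨u, hu⟩ := TopologicalSpace.exists_dense_seq (↥D)
  refine ⟨fun n => (u n : G), fun a ha => ?_⟩
  have ho : IsOpen {d : ↥D | (d : G)⁻¹ * a ∈ V} := by
    refine hVo.preimage ?_
    fun_prop
  have hne : ({d : ↥D | (d : G)⁻¹ * a ∈ V}).Nonempty := ⟨⟨a, ha⟩, by simpa using hV1⟩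
  obtain ⟨n, hn⟩ := hu.exists_mem_open ho hne
  exact ⟨n, hUK _ (D.mul_mem (D.inv_mem (u n).2) ha) (hVU hn)⟩

theorem pf_GAM (h1 : T_LAB) (h2 : T_OCI) : T_GAM := by
  intro G X _ _ _ _ _ L M _ Y P hc
  obtain ⟨-, l2, -, l4, -, -, -⟩ := h1 G
  have key : ∀ q' q : Ty P, ∃ gm : ℕ × ℕ → G, ∀ (x : X) (g' g : G),
      lab (L.R q'.k) (tr g' (Y.C x)) = lab (L.R q'.k) (tr q'.z.2 (Y.C q'.z.1)) →
      lab (L.R q.k) (tr g (Y.C x)) = lab (L.R q.k) (tr q.z.2 (Y.C q.z.1)) →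
      AdmA L q'.k q'.K q.k q.K (g' * g⁻¹) → ∃ n, (gm n)⁻¹ * (g' * g⁻¹) ∈ q.K := by
    intro q' q
    obtain ⟨t, ht⟩ := h2 G (L.H q.k) (L.piece q.k).op
    obtain ⟨d, hd⟩ := cos_cnt q.opn
    set y := lab (L.R q.k) (tr q.z.2 (Y.C q.z.1)) with hy
    set c' := tr q'.z.2 (Y.C q'.z.1) with hc'
    -- the property of the quotients
    let S : Set G := {a | lab (L.R q.k) (tr a⁻¹ c') = y}
    have hS : ∀ (x : X) (g' g : G), lab (L.R q'.k) (tr g' (Y.C x)) = lab (L.R q'.k) c' →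
        lab (L.R q.k) (tr g (Y.C x)) = y → AdmA L q'.k q'.K q.k q.K (g' * g⁻¹) →
        g' * g⁻¹ ∈ S := by
      intro x g' g e1 e2 hA
      have e3 := l4 (L.R q'.k) (L.R q.k) (g' * g⁻¹)⁻¹ (tr g' (Y.C x)) c' (by
        intro r hr
        rw [inv_inv]
        exact hA.mR r hr) e1
      rw [← tr_mul, show (g' * g⁻¹)⁻¹ * g' = g by group, e2] at e3
      exact e3.symm
    have hD : ∀ a ∈ S, ∀ b ∈ S, a⁻¹ * b ∈ L.H q.k → a⁻¹ * b ∈ Stb (L.H q.k) y := by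
      intro a ha b hb hab
      have hinv : (a⁻¹ * b)⁻¹ ∈ Stb (L.H q.k) y := by
        refine ⟨(L.H q.k).inv_mem hab, ?_⟩
        have e := l2 (L.R q.k) (L.H q.k) (tr a⁻¹ c') (L.piece q.k) _ ((L.H q.k).inv_mem hab)
        rw [← tr_mul, show (a⁻¹ * b)⁻¹ * a⁻¹ = b⁻¹ by group] at e
        rw [show lab (L.R q.k) (tr b⁻¹ c') = y from hb,
          show lab (L.R q.k) (tr a⁻¹ c') = y from ha] at e
        exact e.symm
      have := (Stb (L.H q.k) y).inv_mem hinv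
      rwa [inv_inv] at this
    -- a representative in every left coset of the open group
    have hrep : ∀ n, ∃ r : G, ∀ a ∈ S, a⁻¹ * (t n)⁻¹ ∈ L.H q.k →
        r⁻¹ * a ∈ Stb (L.H q.k) y := by
      intro n
      by_cases hn : ∃ r ∈ S, r⁻¹ * (t n)⁻¹ ∈ L.H q.k
      · obtain ⟨r, hr, hr2⟩ := hn
        refine ⟨r, fun a ha ha2 => hD r hr a ha ?_⟩
        have := (L.H q.k).mul_mem hr2 ((L.H q.k).inv_mem ha2)
        rwa [show r⁻¹ * (t n)⁻¹ * (a⁻¹ * (t n)⁻¹)⁻¹ = r⁻¹ * a by group] at this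
      · exact ⟨1, fun a ha ha2 => (hn ⟨a, ha, ha2⟩).elim⟩
    choose r hr using hrep
    refine ⟨fun p => r p.1 * d p.2, fun x g' g e1 e2 hA => ?_⟩
    have haS := hS x g' g e1 e2 hA
    obtain ⟨n, hn⟩ := ht (g' * g⁻¹)⁻¹
    obtain ⟨m, hm⟩ := hd _ (hr n _ haS hn)
    refine ⟨(n, m), ?_⟩
    change (r n * d m)⁻¹ * (g' * g⁻¹) ∈ q.K
    rw [mul_inv_rev, mul_assoc]
    exact hm
  rcases isEmpty_or_nonempty (Ty P) with he | hne
  · exact ⟨fun _ => 1, fun x q' => (he.false q').elim⟩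
  · choose f hf using key
    obtain ⟨e, he⟩ := exists_surjective_nat ((Ty P × Ty P) × (ℕ × ℕ))
    refine ⟨fun n => f (e n).1.1 (e n).1.2 (e n).2, fun x q' q g' g e1 e2 hA => ?_⟩
    obtain ⟨n, hn⟩ := hf q' q x g' g e1 e2 hA
    obtain ⟨j, hj⟩ := he ((q', q), n)
    refine ⟨j, ?_⟩
    change (f (e j).1.1 (e j).1.2 (e j).2)⁻¹ * (g' * g⁻¹) ∈ q.K
    rw [hj]
    exact hn

end Pool.Agent.H5.LP
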